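import Mathlib

/-!
# Total domination versus matching number with two vertices outside triangles

The graph on 11 vertices with edges
`0-6, 1-5, 1-7, 1-8, 1-10, 2-4, 2-7, 2-9, 3-5, 3-8, 4-7, 4-9, 5-8, 6-10, 7-10`
is connected, all its vertices but `0` and `6` lie in triangles, its total domination number is `6`
and its matching number is `5`.
-/

set_option autoImplicit false

namespace Pool.Agent.Results.MP_7cc4cd_co.TwoExceptions

variable {V : Type} [Fintype V] [DecidableEq V]

/-- The vertex `v` lies in a triangle. -/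
def InTriangle (G : SimpleGraph V) (v : V) : Prop :=
  ∃ a b : V, G.Adj v a ∧ G.Adj v b ∧ G.Adj a b

/-- The class `𝒢_k`: every connected component has at least four vertices and all but at most `k`
vertices lie in a triangle. -/
def InClass (k : ℕ) (G : SimpleGraph V) : Prop :=
  (∀ c : G.ConnectedComponent, 4 ≤ c.supp.ncard) ∧ {v : V | ¬ InTriangle G v}.ncard ≤ k

/-- `S` is a total dominating set: every vertex has a neighbour in `S`. -/
def TotalDominating (G : SimpleGraph V) (S : Finset V) : Prop := ∀ v, ∃ u ∈ S, G.Adj v u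

/-- The total domination number (least size of a total dominating set). -/
noncomputable def gammaT (G : SimpleGraph V) : ℕ :=
  sInf {k | ∃ S : Finset V, TotalDominating G S ∧ S.card = k}

/-- `M` is a matching: a set of pairwise disjoint edges. -/
def IsMatching (G : SimpleGraph V) (M : Finset (Sym2 V)) : Prop :=
  (∀ e ∈ M, e ∈ G.edgeSet) ∧ ∀ e ∈ M, ∀ f ∈ M, ∀ v, v ∈ e → v ∈ f → e = f

/-- The matching number (largest size of a matching). -/
noncomputable def matchingNum (G : SimpleGraph V) : ℕ :=
  sSup {k | ∃ M : Finset (Sym2 V), IsMatching G M ∧ M.card = k}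

theorem two_mul_card_le {G : SimpleGraph V} {M : Finset (Sym2 V)} (hM : IsMatching G M) :
    2 * M.card ≤ Fintype.card V := by
  have h : (M.biUnion fun e => e.toFinset).card = ∑ e ∈ M, e.toFinset.card := by
    refine Finset.card_biUnion ?_
    intro e he f hf hne
    rw [Function.onFun, Finset.disjoint_left]
    intro v h1 h2
    rw [Sym2.mem_toFinset] at h1 h2
    exact hne (hM.2 e he f hf v h1 h2)
  have h2 : ∀ e ∈ M, e.toFinset.card = 2 := by
    intro e he
    refine Sym2.card_toFinset_of_not_isDiag e ?_
    exact G.not_isDiag_of_mem_edgeSet (hM.1 e he)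
  rw [Finset.sum_congr rfl h2, Finset.sum_const, smul_eq_mul] at h
  have h3 := Finset.card_le_univ (M.biUnion fun e => e.toFinset)
  omega

theorem matchingNum_le {G : SimpleGraph V} {k : ℕ} (h : Fintype.card V ≤ 2 * k + 1) :
    matchingNum G ≤ k := by
  refine csSup_le ⟨0, ∅, ⟨by simp, by simp⟩, rfl⟩ ?_
  rintro l ⟨M, hM, rfl⟩
  have := two_mul_card_le hM
  omega

theorem le_matchingNum {G : SimpleGraph V} {M : Finset (Sym2 V)} (hM : IsMatching G M) :
    M.card ≤ matchingNum G := by
  refine le_csSup ⟨Fintype.card V, ?_⟩ ⟨M, hM, rfl⟩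
  rintro l ⟨N, hN, rfl⟩
  have := two_mul_card_le hN
  omega

/-- the neighbour lists -/
def nb : Fin 11 → List (Fin 11) :=
  ![[6], [5, 7, 8, 10], [4, 7, 9], [5, 8], [2, 7, 9], [1, 3, 8], [0, 10], [1, 2, 4, 10],
    [1, 3, 5], [2, 4], [1, 6, 7]]

/-- the graph -/
def H : SimpleGraph (Fin 11) where
  Adj i j := j ∈ nb i
  symm := ⟨by decide⟩
  loopless := ⟨by decide⟩

instance : DecidableRel H.Adj := fun i j => inferInstanceAs (Decidable (j ∈ nb i))

theorem connected_H : H.Connected := by
  have h : ∀ v, H.Reachable v 7 := by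
    have e7 : H.Reachable 7 7 := SimpleGraph.Reachable.refl _
    have e1 : H.Reachable 1 7 := SimpleGraph.Adj.reachable (by decide)
    have e2 : H.Reachable 2 7 := SimpleGraph.Adj.reachable (by decide)
    have e4 : H.Reachable 4 7 := SimpleGraph.Adj.reachable (by decide)
    have e10 : H.Reachable 10 7 := SimpleGraph.Adj.reachable (by decide)
    have e6 : H.Reachable 6 7 := (SimpleGraph.Adj.reachable (by decide : H.Adj 6 10)).trans e10
    have e0 : H.Reachable 0 7 := (SimpleGraph.Adj.reachable (by decide : H.Adj 0 6)).trans e6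
    have e5 : H.Reachable 5 7 := (SimpleGraph.Adj.reachable (by decide : H.Adj 5 1)).trans e1
    have e8 : H.Reachable 8 7 := (SimpleGraph.Adj.reachable (by decide : H.Adj 8 1)).trans e1
    have e3 : H.Reachable 3 7 := (SimpleGraph.Adj.reachable (by decide : H.Adj 3 5)).trans e5
    have e9 : H.Reachable 9 7 := (SimpleGraph.Adj.reachable (by decide : H.Adj 9 2)).trans e2
    intro v
    fin_cases v
    · exact e0
    · exact e1
    · exact e2
    · exact e3
    · exact e4
    · exact e5
    · exact e6
    · exact e7
    · exact e8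
    · exact e9
    · exact e10
  exact ⟨fun u v => (h u).trans (h v).symm⟩

/-- the matching `0-6, 7-10, 1-5, 3-8, 2-4` -/
def M5 : Finset (Sym2 (Fin 11)) := {s(0, 6), s(7, 10), s(1, 5), s(3, 8), s(2, 4)}

theorem isMatching_M5 : IsMatching H M5 := by
  constructor
  · intro e he
    simp only [M5, Finset.mem_insert, Finset.mem_singleton] at he
    rcases he with rfl | rfl | rfl | rfl | rfl <;>
      rw [SimpleGraph.mem_edgeSet] <;> decide
  · have : ∀ e ∈ M5, ∀ f ∈ M5, ∀ v, v ∈ e → v ∈ f → e = f := by decide +kernel
    exact this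

/-- every total dominating set of `H` has at least six vertices -/
theorem six_le (S : Finset (Fin 11)) (hS : TotalDominating H S) : 6 ≤ S.card := by
  have key : ∀ S : Finset (Fin 11), (∀ v, ∃ u ∈ S, H.Adj v u) → 6 ≤ S.card := by decide +kernel
  exact key S hS

/-- **Q1 has a negative answer**: there is a connected graph on eleven vertices in `𝒢_2`, with
exactly two vertices outside triangles, whose total domination number is `6` and whose matching
number is `5`. -/
theorem result : ∃ (V : Type) (_ : Fintype V) (_ : DecidableEq V) (G : SimpleGraph V),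
    Fintype.card V = 11 ∧ G.Connected ∧ InClass 2 G ∧ {v : V | ¬ InTriangle G v}.ncard = 2 ∧
      gammaT G = 6 ∧ matchingNum G = 5 := by
  have hset : {v : Fin 11 | ¬ InTriangle H v} = (({0, 6} : Finset (Fin 11)) : Set (Fin 11)) := by
    have h1 : ∀ v : Fin 11, v ∉ ({0, 6} : Finset (Fin 11)) ↔
        ∃ a b : Fin 11, H.Adj v a ∧ H.Adj v b ∧ H.Adj a b := by decide +kernel
    ext v
    have h2 := h1 v
    simp only [Set.mem_ofPred_eq, Finset.mem_coe, InTriangle]
    rw [← h2]
    tauto
  have hcard : {v : Fin 11 | ¬ InTriangle H v}.ncard = 2 := by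
    rw [hset, Set.ncard_coe_finset]
    decide
  refine ⟨Fin 11, inferInstance, inferInstance, H, by simp, connected_H, ⟨?_, hcard.le⟩, hcard,
    ?_, ?_⟩
  · intro c
    have hc : c.supp = Set.univ := by
      rw [Set.eq_univ_iff_forall]
      intro v
      rw [SimpleGraph.ConnectedComponent.mem_supp_iff]
      induction c using SimpleGraph.ConnectedComponent.ind with
      | _ w => exact SimpleGraph.ConnectedComponent.sound (connected_H v w)
    rw [hc, Set.ncard_univ]
    simp
  · apply le_antisymm
    · refine Nat.sInf_le ⟨{0, 1, 2, 4, 5, 6}, ?_, by decide⟩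
      have : ∀ v : Fin 11, ∃ u ∈ ({0, 1, 2, 4, 5, 6} : Finset (Fin 11)), H.Adj v u := by decide
      exact this
    · refine le_csInf ⟨11, Finset.univ, ?_, by simp⟩ ?_
      · have : ∀ v : Fin 11, ∃ u ∈ (Finset.univ : Finset (Fin 11)), H.Adj v u := by decide
        exact this
      · rintro k ⟨S, hS, rfl⟩
        exact six_le S hS
  · apply le_antisymm
    · exact matchingNum_le (by simp)
    · have := le_matchingNum isMatching_M5
      have h5 : M5.card = 5 := by decide
      omega

end Pool.Agent.Results.MP_7cc4cd_co.TwoExceptions
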